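import Pool.Agent.K1H49.PL.Stm

/-! Project PL (MP_0ff3ec_lc): the tree of copies, `t_JT1 : S_JT1` and `t_JT2 : S_JT2`. -/

set_option autoImplicit false

namespace Pool.Agent.K1H16.PL

open Pool.Agent.K1H49.PL

/-! ### gluing -/

/-- the map which is `g` above `q` and the identity elsewhere -/
noncomputable def glue (q : Nd) (g : Nd → Nd) (π : Nd) : Nd := by
  classical
  exact if q <+: π then g (π.drop q.length) else π

lemma glue_app (q : Nd) (g : Nd → Nd) (π : Nd) : glue q g (q ++ π) = g π := by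
  unfold glue
  rw [if_pos (List.prefix_append q π), List.drop_left]

lemma glue_not {q : Nd} (g : Nd → Nd) {π : Nd} (h : ¬ q <+: π) : glue q g π = π := by
  unfold glue
  rw [if_neg h]

lemma emb_glue {q : Nd} {g : Nd → Nd} (hg : Emb g) (hq : q <+: g []) : Emb (glue q g) := by
  intro π d
  by_cases h1 : q <+: π
  · obtain ⟨ρ, rfl⟩ := h1
    rw [glue_app, List.append_assoc, glue_app]
    exact hg ρ d
  · rw [glue_not g h1]
    by_cases h2 : q <+: π ++ [d]
    · -- then `q = π ++ [d]`
      have h3 : q = π ++ [d] := by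
        rcases List.prefix_concat_iff.1 h2 with h | h
        · exact h
        · exact absurd h h1
      rw [← h3]
      have h4 := glue_app q g []
      rw [List.append_nil] at h4
      rw [h4]
      exact hq
    · rw [glue_not g h2]

lemma emb_app {g : Nd → Nd} (a : Nd) (hg : Emb g) : Emb (fun π => a ++ g π) := by
  intro π d
  show (a ++ g π) ++ [d] <+: a ++ g (π ++ [d])
  rw [List.append_assoc]
  exact (List.prefix_append_right_inj a).2 (hg π d)

lemma emb_id : Emb (fun π => π) := fun _ _ => List.prefix_rfl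

/-! ### positions -/

section pos

variable {Λ : Type}

lemma pos_shift (F : Sh Λ) (π ρ : Nd) :
    F.pos (π ++ ρ) = (F.pos ρ).map (fun p => (π ++ p.1, p.2)) := by
  induction F generalizing ρ with
  | nil => rfl
  | node ls l r hl hr =>
    simp only [Sh.pos, List.map_append, List.map_map]
    rw [List.append_assoc, List.append_assoc, hl, hr]
    rfl

lemma mem_pos_iff (F : Sh Λ) (π : Nd) (p : Nd × Λ) :
    p ∈ F.pos π ↔ ∃ p' ∈ F.pos [], p = (π ++ p'.1, p'.2) := by
  have h := pos_shift F π []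
  rw [List.append_nil] at h
  rw [h, List.mem_map]
  exact ⟨fun ⟨a, h1, h2⟩ => ⟨a, h1, h2.symm⟩, fun ⟨a, h1, h2⟩ => ⟨a, h1, h2.symm⟩⟩

lemma mem_plug (C : Ctx Λ) (F : Sh Λ) (π : Nd) (p : Nd × Λ) :
    p ∈ (C.plug F).pos π ↔ p ∈ (C.plug .nil).pos π ∨ p ∈ F.pos (π ++ C.hp) := by
  induction C generalizing π with
  | hole => simp [Ctx.plug, Ctx.hp, Sh.pos]
  | L ls C r ih =>
    simp only [Ctx.plug, Ctx.hp, Sh.pos, List.mem_append]
    rw [ih (π ++ [false]), List.append_assoc, List.singleton_append]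
    tauto
  | R ls l C ih =>
    simp only [Ctx.plug, Ctx.hp, Sh.pos, List.mem_append]
    rw [ih (π ++ [true]), List.append_assoc, List.singleton_append]
    tauto

lemma not_hp (C : Ctx Λ) : ∀ p ∈ (C.plug .nil).pos [], ¬ C.hp <+: p.1 := by
  induction C with
  | hole => intro p hp; simp [Ctx.plug, Sh.pos] at hp
  | L ls C r ih =>
    intro p hp
    simp only [Ctx.plug, Sh.pos, List.mem_append, List.nil_append] at hp
    rcases hp with hp | hp | hp
    · obtain ⟨a, _, rfl⟩ := List.mem_map.1 hp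
      simp [Ctx.hp]
    · obtain ⟨p', hp', rfl⟩ := (mem_pos_iff _ _ _).1 hp
      have := ih p' hp'
      simpa [Ctx.hp] using this
    · obtain ⟨p', hp', rfl⟩ := (mem_pos_iff _ _ _).1 hp
      simp [Ctx.hp]
  | R ls l C ih =>
    intro p hp
    simp only [Ctx.plug, Sh.pos, List.mem_append, List.nil_append] at hp
    rcases hp with hp | hp | hp
    · obtain ⟨a, _, rfl⟩ := List.mem_map.1 hp
      simp [Ctx.hp]
    · obtain ⟨p', hp', rfl⟩ := (mem_pos_iff _ _ _).1 hp
      simp [Ctx.hp]
    · obtain ⟨p', hp', rfl⟩ := (mem_pos_iff _ _ _).1 hp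
      have := ih p' hp'
      simpa [Ctx.hp] using this

end pos

/-! ### paths -/

/-- the copies above the hole -/
noncomputable def gg (h : Nd) : Nd → Nd → Nd
  | [], π => π
  | s :: σ, π => glue h (fun ρ => (h ++ [s]) ++ gg h σ ρ) π

lemma emb_gg (h : Nd) (σ : Nd) : Emb (gg h σ) := by
  induction σ with
  | nil => exact emb_id
  | cons s σ ih =>
    have := emb_glue (q := h) (emb_app (h ++ [s]) ih) (by
      rw [List.append_assoc]
      exact List.prefix_append _ _)
    exact this

lemma paths {Λ : Type} (K : Ctx Λ) (σ : Nd) : ∀ τ : Nd, τ <+: σ → ∀ p ∈ (K.plug .nil).pos [],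
    ∃ π, (π, p.2) ∈ ((K.plug)^[σ.length + 1] .nil).pos [] ∧
      gg K.hp σ π = (τ.map fun i => K.hp ++ [i]).flatten ++ p.1 := by
  induction σ with
  | nil =>
    intro τ hτ p hp
    obtain rfl : τ = [] := List.prefix_nil.1 hτ
    exact ⟨p.1, hp, by simp [gg]⟩
  | cons s σ ih =>
    intro τ hτ p hp
    cases τ with
    | nil =>
      refine ⟨p.1, ?_, ?_⟩
      · rw [Function.iterate_succ_apply', mem_plug]
        exact Or.inl hp
      · simp only [gg, List.map_nil, List.flatten_nil, List.nil_append]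
        exact glue_not _ (not_hp K p hp)
    | cons b τ =>
      obtain ⟨rfl, hτ'⟩ := List.cons_prefix_cons.1 hτ
      obtain ⟨π, hπ1, hπ2⟩ := ih τ hτ' p hp
      refine ⟨K.hp ++ π, ?_, ?_⟩
      · rw [List.length_cons, Function.iterate_succ_apply', mem_plug]
        refine Or.inr ?_
        rw [mem_pos_iff]
        exact ⟨(π, p.2), hπ1, by simp⟩
      · simp only [gg]
        rw [glue_app, hπ2]
        simp

theorem t_JT1 : S_JT1 := by
  intro Λ C K σ
  refine ⟨glue C.hp (fun ρ => C.hp ++ gg K.hp σ ρ),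
    emb_glue (emb_app _ (emb_gg _ _)) (List.prefix_append _ _), ?_⟩
  rintro q (⟨p, hp, rfl⟩ | ⟨τ, hτ, p, hp, rfl⟩)
  · exact ⟨q.1, (mem_plug _ _ _ _).2 (Or.inl hp), glue_not _ (not_hp C q hp)⟩
  · obtain ⟨π, hπ1, hπ2⟩ := paths K σ τ hτ p hp
    refine ⟨C.hp ++ π, ?_, ?_⟩
    · rw [mem_plug]
      refine Or.inr ?_
      rw [mem_pos_iff]
      exact ⟨(π, p.2), hπ1, by simp⟩
    · rw [glue_app, hπ2]
      simp [jt]

/-! ### incomparable pairs -/

/-- the map above the hole -/
def g2 (a b c : Nd) : Nd → Nd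
  | [] => a
  | false :: π => b ++ π
  | true :: π => c ++ π

lemma emb_g2 {a b c : Nd} (h1 : a ++ [false] <+: b) (h2 : a ++ [true] <+: c) :
    Emb (g2 a b c) := by
  intro π d
  cases π with
  | nil =>
    cases d
    · simpa [g2] using h1
    · simpa [g2] using h2
  | cons x π =>
    cases x
    · simp [g2]
    · simp [g2]

theorem t_JT2 : S_JT2 := by
  intro Λ C K ρ μ ν
  have hb : jt C.hp K.hp ρ ++ K.hp ++ [false] <+: jt C.hp K.hp (ρ ++ false :: μ) := by
    simp [jt]
  have hc : jt C.hp K.hp ρ ++ K.hp ++ [true] <+: jt C.hp K.hp (ρ ++ true :: ν) := by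
    simp [jt]
  refine ⟨glue C.hp (g2 (jt C.hp K.hp ρ ++ K.hp) (jt C.hp K.hp (ρ ++ false :: μ))
    (jt C.hp K.hp (ρ ++ true :: ν))), emb_glue (emb_g2 hb hc) ?_, ?_⟩
  · simp [g2, jt]
  · intro p hp
    rw [mem_plug] at hp
    rcases hp with hp | hp
    · exact Or.inl ⟨hp, glue_not _ (not_hp C p hp)⟩
    · right
      simp only [Sh.pos, List.map_nil, List.nil_append, List.mem_append] at hp
      rcases hp with hp | hp
      · obtain ⟨p', hp', rfl⟩ := (mem_pos_iff _ _ _).1 hp
        refine ⟨p', hp', rfl, Or.inl ?_⟩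
        simp only [List.append_assoc]
        rw [glue_app]
        rfl
      · obtain ⟨p', hp', rfl⟩ := (mem_pos_iff _ _ _).1 hp
        refine ⟨p', hp', rfl, Or.inr ?_⟩
        simp only [List.append_assoc]
        rw [glue_app]
        rfl

end Pool.Agent.K1H16.PL
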